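import Mathlib

/-!
# MP_92a303_gt: extending the kernel map over the blow-up set (Q1 is false)

Example on the flat torus `T³ = ℝ³/(2πℤ)³` with its standard trivial spin structure (`S = ℂ²`,
Clifford multiplication by Pauli matrices), `L` trivial, `n = 4`, `E = ℂ⁴` with a smooth
`SU(4)`-connection `B` that is flat and trivial near the two points of the blow-up set `Z`, where
`Ψ` is plus or minus the linear harmonic spinor `L(x)` of spin `3/2`.  Functions and sections on
`T³` are `2π`-periodic functions on `ℝ³`.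
-/

open MeasureTheory Filter Topology Set Matrix
open scoped ContDiff

namespace Pool.Agent.Results.MP_92a303_gt.TorusExample

/-- The universal cover `ℝ³` of the flat torus. -/
abbrev V3 := Fin 3 → ℝ

/-- Clifford multiplication by the three coordinate covectors (up to the factor `i`). -/
noncomputable def pauli : Fin 3 → Matrix (Fin 2) (Fin 2) ℂ :=
  ![!![0, 1; 1, 0], !![0, -Complex.I; Complex.I, 0], !![1, 0; 0, -1]]

/-- `j`-th partial derivative of a matrix valued function. -/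
noncomputable def dj {m n : ℕ} (F : V3 → Matrix (Fin m) (Fin n) ℂ) (j : Fin 3) (x : V3) :
    Matrix (Fin m) (Fin n) ℂ :=
  Matrix.of fun a b => fderiv ℝ (fun y => F y a b) x (Pi.single j 1)

/-- `2π`-periodicity in the three coordinates: `F` is a function on the torus. -/
def Periodic3 {α : Type} (F : V3 → α) : Prop :=
  ∀ (x : V3) (j : Fin 3), F (x + Pi.single j (2 * Real.pi)) = F x

/-- `d + Σ B_j dx_j` is a smooth `SU(n)`-connection on the trivial bundle `T³ × ℂⁿ`. -/
structure IsSUConnection (n : ℕ) (B : Fin 3 → V3 → Matrix (Fin n) (Fin n) ℂ) : Prop where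
  smooth : ∀ j a b, ContDiff ℝ ∞ (fun x => B j x a b)
  periodic : ∀ j, Periodic3 (B j)
  skew : ∀ j x, (B j x)ᴴ = -B j x
  traceless : ∀ j x, (B j x).trace = 0

/-- `|Ψ|²`. -/
noncomputable def nsq {n : ℕ} (P : Matrix (Fin 2) (Fin n) ℂ) : ℝ := ∑ a, ∑ b, ‖P a b‖ ^ 2

/-- `μ(Ψ) = ΨΨ* - ½|Ψ|² id`. -/
noncomputable def mu {n : ℕ} (P : Matrix (Fin 2) (Fin n) ℂ) : Matrix (Fin 2) (Fin 2) ℂ :=
  P * Pᴴ - ((nsq P / 2 : ℝ) : ℂ) • (1 : Matrix (Fin 2) (Fin 2) ℂ)

/-- The twisted Dirac operator `D_{A⊗B} Ψ = Σ_j σ_j (∂_j Ψ + i A_j Ψ - Ψ B_j)` on sections of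
`Hom(E, S ⊗ L)`, for the connections `d + iA` on `L` and `d + B` on `E`. -/
noncomputable def dirac {n : ℕ} (A : Fin 3 → V3 → ℝ) (B : Fin 3 → V3 → Matrix (Fin n) (Fin n) ℂ)
    (Ψ : V3 → Matrix (Fin 2) (Fin n) ℂ) (x : V3) : Matrix (Fin 2) (Fin n) ℂ :=
  ∑ j, pauli j * (dj Ψ j x + (Complex.I * (A j x : ℂ)) • Ψ x - Ψ x * B j x)

/-- `(A, Ψ, 0)` is a solution over `T³ \ Z` of the blown-up Seiberg-Witten equations with `n`
spinors, with blow-up set `Z`. -/
structure IsSolution (n : ℕ) (B : Fin 3 → V3 → Matrix (Fin n) (Fin n) ℂ) (Z : Set V3)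
    (A : Fin 3 → V3 → ℝ) (Ψ : V3 → Matrix (Fin 2) (Fin n) ℂ) : Prop where
  closed : IsClosed Z
  nowhere_dense : interior Z = ∅
  periodicZ : Periodic3 (fun x => x ∈ Z)
  smoothA : ∀ j, ContDiffOn ℝ ∞ (A j) Zᶜ
  periodicA : ∀ j, Periodic3 (A j)
  smoothPsi : ∀ a b, ContDiffOn ℝ ∞ (fun x => Ψ x a b) Zᶜ
  periodicPsi : Periodic3 Ψ
  norm_extends : ∃ M : V3 → ℝ, Continuous M ∧ (∀ x, x ∉ Z → M x = Real.sqrt (nsq (Ψ x))) ∧
    ∀ x, M x = 0 ↔ x ∈ Z
  normalized : ∫ x in Icc (0 : V3) (fun _ => 2 * Real.pi), nsq (Ψ x) = 1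
  dirac_eq : ∀ x, x ∉ Z → dirac A B Ψ x = 0
  mu_eq : ∀ x, x ∉ Z → mu (Ψ x) = 0

/-- `P` is the orthogonal projection of `ℂⁿ` onto `ker Ψ`. -/
structure IsKernelProj {n : ℕ} (P : Matrix (Fin n) (Fin n) ℂ) (Ψ : Matrix (Fin 2) (Fin n) ℂ) :
    Prop where
  herm : Pᴴ = P
  idem : P * P = P
  range : ∀ v : Fin n → ℂ, P.mulVec v = v ↔ Ψ.mulVec v = 0

/-- The kernel map `m ↦ ker Ψ_m` extends continuously from `T³ \ Z` to `T³`.  The Grassmannian is
identified with the set of orthogonal projections. -/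
def KernelMapExtends (n : ℕ) (Z : Set V3) (Ψ : V3 → Matrix (Fin 2) (Fin n) ℂ) : Prop :=
  ∃ P : V3 → Matrix (Fin n) (Fin n) ℂ, Continuous P ∧ ∀ x, x ∉ Z → IsKernelProj (P x) (Ψ x)

/-! ### Scalar functions -/

/-- smooth step, `0` where `cos v ≥ 1/2` and `1` where `cos v ≤ -1/2` -/
noncomputable def T (v : ℝ) : ℝ := Real.smoothTransition (1 / 2 - Real.cos v)

/-- cutoff -/
noncomputable def chi (u : ℝ) : ℝ := Real.smoothTransition ((1 / 4 - u ^ 2) * (16 / 3))

/-- modification of `arcsin` -/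
noncomputable def rho (u : ℝ) : ℝ := u + chi u * (Real.arcsin u - u)

/-- smooth odd periodic function equal to `v` near `0` and `π - v` near `π` -/
noncomputable def S (v : ℝ) : ℝ := rho (Real.sin v)

lemma T_smooth : ContDiff ℝ ∞ T := by
  unfold T
  exact Real.smoothTransition.contDiff.comp (contDiff_const.sub Real.contDiff_cos)

lemma chi_smooth : ContDiff ℝ ∞ chi := by
  unfold chi
  exact Real.smoothTransition.contDiff.comp
    ((contDiff_const.sub (contDiff_id.pow 2)).mul contDiff_const)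

lemma rho_smooth : ContDiff ℝ ∞ rho := by
  rw [contDiff_iff_contDiffAt]
  intro u
  rcases lt_or_ge (u ^ 2) 1 with hu | hu
  · have h1 : u ≠ -1 := by rintro rfl; norm_num at hu
    have h2 : u ≠ 1 := by rintro rfl; norm_num at hu
    exact contDiffAt_id.add (chi_smooth.contDiffAt.mul
      ((Real.contDiffAt_arcsin h1 h2).sub contDiffAt_id))
  · have h1 : ∀ᶠ v in 𝓝 u, (1 / 4 : ℝ) < v ^ 2 := by
      have hc : Continuous (fun v : ℝ => v ^ 2) := by fun_prop
      exact hc.continuousAt.eventually_const_lt (by linarith)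
    have h2 : rho =ᶠ[𝓝 u] fun v => v := by
      filter_upwards [h1] with v hv
      have : chi v = 0 := by
        unfold chi
        apply Real.smoothTransition.zero_of_nonpos
        nlinarith
      unfold rho
      rw [this]; ring
    exact contDiffAt_id.congr_of_eventuallyEq h2

lemma S_smooth : ContDiff ℝ ∞ S := rho_smooth.comp Real.contDiff_sin

lemma rho_neg (u : ℝ) : rho (-u) = -rho u := by
  have : chi (-u) = chi u := by unfold chi; rw [neg_sq]
  unfold rho
  rw [this, Real.arcsin_neg]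
  ring

lemma rho_pos {u : ℝ} (h0 : 0 < u) (h1 : u ≤ 1) : 0 < rho u ∧ rho u ≤ Real.pi / 2 := by
  have h2 : u ≤ Real.arcsin u := by
    have h3 := Real.sin_le (Real.arcsin_nonneg.mpr h0.le)
    rwa [Real.sin_arcsin (by linarith) h1] at h3
  have h4 : 0 ≤ chi u := Real.smoothTransition.nonneg _
  have h5 : chi u ≤ 1 := Real.smoothTransition.le_one _
  have h6 := Real.arcsin_le_pi_div_two u
  unfold rho
  constructor
  · have := mul_nonneg h4 (sub_nonneg.mpr h2)
    linarith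
  · have := mul_le_mul_of_nonneg_right h5 (sub_nonneg.mpr h2)
    linarith

lemma S_zero {v : ℝ} (h : S v = 0) : Real.sin v = 0 := by
  unfold S at h
  rcases lt_trichotomy (Real.sin v) 0 with h1 | h1 | h1
  · have h2 := (rho_pos (u := -Real.sin v) (by linarith) (by linarith [Real.neg_one_le_sin v])).1
    rw [rho_neg, h] at h2
    norm_num at h2
  · exact h1
  · have h2 := (rho_pos h1 (Real.sin_le_one v)).1
    rw [h] at h2
    exact absurd h2 (lt_irrefl _)

lemma rho_zero : rho 0 = 0 := by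
  have := rho_neg 0
  rw [neg_zero] at this
  linarith

lemma S_gt (v : ℝ) : -2 < S v := by
  unfold S
  have hπ := Real.pi_lt_d2
  rcases lt_trichotomy (Real.sin v) 0 with h1 | h1 | h1
  · have h2 := (rho_pos (u := -Real.sin v) (by linarith) (by linarith [Real.neg_one_le_sin v])).2
    rw [rho_neg] at h2
    linarith
  · rw [h1, rho_zero]; norm_num
  · have h2 := (rho_pos h1 (Real.sin_le_one v)).1
    linarith

lemma rho_eq {u : ℝ} (h : |u| < 1 / 4) : rho u = Real.arcsin u := by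
  have h1 : u ^ 2 < 1 / 16 := by
    have := sq_lt_sq' (neg_lt_of_abs_lt h) (lt_of_abs_lt h)
    norm_num at this ⊢
    exact this
  have : chi u = 1 := by
    unfold chi
    apply Real.smoothTransition.one_of_one_le
    linarith
  unfold rho
  rw [this]; ring

lemma S_hasDerivAt {v : ℝ} (h : |Real.sin v| < 1 / 4) :
    HasDerivAt S (Real.cos v / |Real.cos v|) v := by
  have h1 : Real.sin v ≠ -1 := by
    intro h2; rw [h2] at h; norm_num at h
  have h2 : Real.sin v ≠ 1 := by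
    intro h2; rw [h2] at h; norm_num at h
  have h3 : HasDerivAt (fun w => Real.arcsin (Real.sin w))
      (1 / Real.sqrt (1 - Real.sin v ^ 2) * Real.cos v) v :=
    (Real.hasDerivAt_arcsin h1 h2).comp v (Real.hasDerivAt_sin v)
  have h4 : Real.sqrt (1 - Real.sin v ^ 2) = |Real.cos v| := by
    rw [← Real.sqrt_sq_eq_abs]
    congr 1
    have := Real.sin_sq_add_cos_sq v
    linarith
  rw [h4] at h3
  have h5 : 1 / |Real.cos v| * Real.cos v = Real.cos v / |Real.cos v| := by ring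
  rw [h5] at h3
  have h6 : S =ᶠ[𝓝 v] fun w => Real.arcsin (Real.sin w) := by
    have hc : ContinuousAt (fun w => |Real.sin w|) v := by fun_prop
    filter_upwards [hc.eventually_lt_const h] with w hw
    exact rho_eq hw
  exact h3.congr_of_eventuallyEq h6

lemma T_zero {v : ℝ} (h : 1 / 2 ≤ Real.cos v) : T v = 0 :=
  Real.smoothTransition.zero_of_nonpos (by linarith)

lemma T_one {v : ℝ} (h : Real.cos v ≤ -(1 / 2)) : T v = 1 :=
  Real.smoothTransition.one_of_one_le (by linarith)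

lemma T_nonneg (v : ℝ) : 0 ≤ T v := Real.smoothTransition.nonneg _

/-! ### The map `f : T³ → ℝ³` -/

/-- components of the map `f` -/
noncomputable def f0 (x : V3) : ℝ := S (x 0) + 2 * (T (x 1) + T (x 2))
/-- components of the map `f` -/
noncomputable def f1 (x : V3) : ℝ :=
  Real.cos (Real.pi * T (x 0)) * S (x 1) - Real.sin (Real.pi * T (x 0)) * S (x 2)
/-- components of the map `f` -/
noncomputable def f2 (x : V3) : ℝ :=
  Real.sin (Real.pi * T (x 0)) * S (x 1) + Real.cos (Real.pi * T (x 0)) * S (x 2)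

lemma coord_smooth (j : Fin 3) : ContDiff ℝ ∞ (fun x : V3 => x j) := contDiff_apply ℝ ℝ j

lemma f0_smooth : ContDiff ℝ ∞ f0 :=
  (S_smooth.comp (coord_smooth 0)).add (contDiff_const.mul
    ((T_smooth.comp (coord_smooth 1)).add (T_smooth.comp (coord_smooth 2))))

lemma cosT_smooth : ContDiff ℝ ∞ (fun x : V3 => Real.cos (Real.pi * T (x 0))) :=
  Real.contDiff_cos.comp (contDiff_const.mul (T_smooth.comp (coord_smooth 0)))

lemma sinT_smooth : ContDiff ℝ ∞ (fun x : V3 => Real.sin (Real.pi * T (x 0))) :=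
  Real.contDiff_sin.comp (contDiff_const.mul (T_smooth.comp (coord_smooth 0)))

lemma f1_smooth : ContDiff ℝ ∞ f1 :=
  (cosT_smooth.mul (S_smooth.comp (coord_smooth 1))).sub
    (sinT_smooth.mul (S_smooth.comp (coord_smooth 2)))

lemma f2_smooth : ContDiff ℝ ∞ f2 :=
  (sinT_smooth.mul (S_smooth.comp (coord_smooth 1))).add
    (cosT_smooth.mul (S_smooth.comp (coord_smooth 2)))

/-- the region where everything is linear -/
def Nb : Set V3 := {x | |Real.sin (x 0)| < 1 / 4 ∧ |Real.sin (x 1)| < 1 / 4 ∧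
  |Real.sin (x 2)| < 1 / 4 ∧ 1 / 2 < Real.cos (x 1) ∧ 1 / 2 < Real.cos (x 2)}

lemma isOpen_Nb : IsOpen Nb := by
  have hc : ∀ j : Fin 3, Continuous (fun x : V3 => x j) := fun j => continuous_apply j
  have h1 : ∀ j : Fin 3, IsOpen {x : V3 | |Real.sin (x j)| < 1 / 4} := fun j =>
    isOpen_lt ((Real.continuous_sin.comp (hc j)).abs) continuous_const
  have h2 : ∀ j : Fin 3, IsOpen {x : V3 | 1 / 2 < Real.cos (x j)} := fun j =>
    isOpen_lt continuous_const (Real.continuous_cos.comp (hc j))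
  exact (h1 0).inter ((h1 1).inter ((h1 2).inter ((h2 1).inter (h2 2))))

/-- the squared norm of `f` -/
noncomputable def fs (x : V3) : ℝ := f0 x ^ 2 + f1 x ^ 2 + f2 x ^ 2

lemma fs_nonneg (x : V3) : 0 ≤ fs x := by unfold fs; positivity

lemma fs_zero {x : V3} (h : fs x = 0) : f0 x = 0 ∧ f1 x = 0 ∧ f2 x = 0 := by
  unfold fs at h
  have h0 := sq_nonneg (f0 x)
  have h1 := sq_nonneg (f1 x)
  have h2 := sq_nonneg (f2 x)
  refine ⟨?_, ?_, ?_⟩
  · exact pow_eq_zero_iff two_ne_zero |>.mp (by linarith)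
  · exact pow_eq_zero_iff two_ne_zero |>.mp (by linarith)
  · exact pow_eq_zero_iff two_ne_zero |>.mp (by linarith)

lemma zero_data {x : V3} (h : fs x = 0) : Real.sin (x 0) = 0 ∧ Real.sin (x 1) = 0 ∧
    Real.sin (x 2) = 0 ∧ Real.cos (x 1) = 1 ∧ Real.cos (x 2) = 1 := by
  obtain ⟨h0, h1, h2⟩ := fs_zero h
  unfold f0 at h0
  unfold f1 at h1
  unfold f2 at h2
  set c := Real.cos (Real.pi * T (x 0))
  set s := Real.sin (Real.pi * T (x 0))
  have hcs : s ^ 2 + c ^ 2 = 1 := Real.sin_sq_add_cos_sq _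
  have hS1 : S (x 1) = 0 := by
    have : S (x 1) = c * (c * S (x 1) - s * S (x 2)) + s * (s * S (x 1) + c * S (x 2)) := by
      linear_combination (-S (x 1)) * hcs
    rw [this, h1, h2]; ring
  have hS2 : S (x 2) = 0 := by
    have : S (x 2) = c * (s * S (x 1) + c * S (x 2)) - s * (c * S (x 1) - s * S (x 2)) := by
      linear_combination (-S (x 2)) * hcs
    rw [this, h1, h2]; ring
  have hsin1 := S_zero hS1
  have hsin2 := S_zero hS2
  have hS0 := S_gt (x 0)
  have hT1 := T_nonneg (x 1)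
  have hT2 := T_nonneg (x 2)
  have hcos : ∀ v : ℝ, Real.sin v = 0 → T v ≠ 1 → Real.cos v = 1 := by
    intro v hv hT
    have h3 := Real.sin_sq_add_cos_sq v
    rw [hv] at h3
    have h4 : (Real.cos v - 1) * (Real.cos v + 1) = 0 := by linear_combination h3
    rcases mul_eq_zero.mp h4 with h5 | h5
    · linarith
    · exact absurd (T_one (by linarith)) hT
  have hc1 := hcos _ hsin1 (by intro h5; rw [h5] at h0; linarith)
  have hc2 := hcos _ hsin2 (by intro h5; rw [h5] at h0; linarith)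
  rw [T_zero (v := x 1) (by linarith), T_zero (v := x 2) (by linarith)] at h0
  have hS0' : S (x 0) = 0 := by linarith
  exact ⟨S_zero hS0', hsin1, hsin2, hc1, hc2⟩

lemma zero_mem_Nb {x : V3} (h : fs x = 0) : x ∈ Nb := by
  obtain ⟨h0, h1, h2, h3, h4⟩ := zero_data h
  refine ⟨?_, ?_, ?_, ?_, ?_⟩
  · rw [h0]; norm_num
  · rw [h1]; norm_num
  · rw [h2]; norm_num
  · rw [h3]; norm_num
  · rw [h4]; norm_num

lemma fd_coord (j k : Fin 3) (x : V3) {g : ℝ → ℝ} {g' : ℝ} (hg : HasDerivAt g g' (x j)) :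
    fderiv ℝ (fun y : V3 => g (y j)) x (Pi.single k 1) = if k = j then g' else 0 := by
  have h1 : HasFDerivAt (fun y : V3 => y j) (ContinuousLinearMap.proj (R := ℝ) j) x :=
    (ContinuousLinearMap.proj (R := ℝ) (φ := fun _ : Fin 3 => ℝ) j).hasFDerivAt
  have h2 := hg.comp_hasFDerivAt x h1
  have h3 : HasFDerivAt (fun y : V3 => g (y j)) (g' • ContinuousLinearMap.proj (R := ℝ) j) x := h2
  rw [h3.fderiv]
  by_cases hjk : k = j
  · subst hjk; simp
  · simp [hjk, Ne.symm hjk]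

/-- On `Nb` the derivative of `f` is `ε · id` with `ε = ±1`. -/
lemma fderiv_on_Nb {x : V3} (hx : x ∈ Nb) : ∃ ε : ℝ, ∀ k : Fin 3,
    fderiv ℝ f0 x (Pi.single k 1) = (if k = 0 then ε else 0) ∧
    fderiv ℝ f1 x (Pi.single k 1) = (if k = 1 then ε else 0) ∧
    fderiv ℝ f2 x (Pi.single k 1) = (if k = 2 then ε else 0) := by
  obtain ⟨h0, h1, h2, h3, h4⟩ := hx
  -- sign of `cos (x 0)`
  have hsq : 15 / 16 < Real.cos (x 0) ^ 2 := by
    have h5 := sq_lt_sq' (neg_lt_of_abs_lt h0) (lt_of_abs_lt h0)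
    have h6 := Real.sin_sq_add_cos_sq (x 0)
    norm_num at h5
    linarith
  have hloc : ∀ᶠ y in 𝓝 x, T (y 1) = 0 ∧ T (y 2) = 0 := by
    have hc1 : ContinuousAt (fun y : V3 => Real.cos (y 1)) x :=
      (Real.continuous_cos.comp (continuous_apply 1)).continuousAt
    have hc2 : ContinuousAt (fun y : V3 => Real.cos (y 2)) x :=
      (Real.continuous_cos.comp (continuous_apply 2)).continuousAt
    filter_upwards [hc1.eventually_const_lt h3, hc2.eventually_const_lt h4] with y hy1 hy2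
    exact ⟨T_zero hy1.le, T_zero hy2.le⟩
  have hS1 := S_hasDerivAt h1
  have hS2 := S_hasDerivAt h2
  rw [abs_of_pos (by linarith), div_self (by linarith)] at hS1 hS2
  have hS0 := S_hasDerivAt h0
  have key : ∀ ε : ℝ, Real.cos (x 0) / |Real.cos (x 0)| = ε →
      (∀ᶠ y in 𝓝 x, Real.cos (Real.pi * T (y 0)) = ε ∧ Real.sin (Real.pi * T (y 0)) = 0) →
      ∃ ε : ℝ, ∀ k : Fin 3,
      fderiv ℝ f0 x (Pi.single k 1) = (if k = 0 then ε else 0) ∧
      fderiv ℝ f1 x (Pi.single k 1) = (if k = 1 then ε else 0) ∧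
      fderiv ℝ f2 x (Pi.single k 1) = (if k = 2 then ε else 0) := by
    intro ε hε hev
    rw [hε] at hS0
    refine ⟨ε, fun k => ⟨?_, ?_, ?_⟩⟩
    · have h7 : f0 =ᶠ[𝓝 x] fun y => S (y 0) := by
        filter_upwards [hloc] with y hy
        unfold f0
        rw [hy.1, hy.2]; ring
      rw [h7.fderiv_eq, fd_coord 0 k x hS0]
    · have h7 : f1 =ᶠ[𝓝 x] fun y => (fun t => ε * S t) (y 1) := by
        filter_upwards [hev] with y hy
        unfold f1
        rw [hy.1, hy.2]; ring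
      rw [h7.fderiv_eq, fd_coord 1 k x (g := fun t => ε * S t) (hS1.const_mul ε), mul_one]
    · have h7 : f2 =ᶠ[𝓝 x] fun y => (fun t => ε * S t) (y 2) := by
        filter_upwards [hev] with y hy
        unfold f2
        rw [hy.1, hy.2]; ring
      rw [h7.fderiv_eq, fd_coord 2 k x (g := fun t => ε * S t) (hS2.const_mul ε), mul_one]
  have hc0 : ContinuousAt (fun y : V3 => Real.cos (y 0)) x :=
    (Real.continuous_cos.comp (continuous_apply 0)).continuousAt
  rcases lt_or_ge 0 (Real.cos (x 0)) with hp | hp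
  · have h8 : 1 / 2 < Real.cos (x 0) := by nlinarith
    apply key 1
    · rw [abs_of_pos hp, div_self hp.ne']
    · filter_upwards [hc0.eventually_const_lt h8] with y hy
      rw [T_zero hy.le]; simp
  · have h8 : Real.cos (x 0) < -(1 / 2) := by nlinarith
    apply key (-1)
    · rw [abs_of_neg (by linarith), div_neg, div_self (by linarith)]
    · filter_upwards [hc0.eventually_lt_const h8] with y hy
      rw [T_one hy.le]; simp

/-! ### The spinor -/

/-- The linear harmonic spinor of spin `3/2`. -/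
noncomputable def L (a b c : ℝ) : Matrix (Fin 2) (Fin 4) ℂ :=
  !![(Real.sqrt 3 : ℂ) * (a + b * Complex.I), -2 * c, a - b * Complex.I, 0;
     0, a + b * Complex.I, 2 * c, (Real.sqrt 3 : ℂ) * (a - b * Complex.I)]

lemma sqrt3_sq : ((Real.sqrt 3 : ℝ) : ℂ) * ((Real.sqrt 3 : ℝ) : ℂ) = 3 := by
  rw [← Complex.ofReal_mul, Real.mul_self_sqrt (by norm_num)]; norm_num

section entries
variable (a b c : ℝ)
lemma L00 : L a b c 0 0 = (Real.sqrt 3 : ℂ) * (a + b * Complex.I) := rfl
lemma L01 : L a b c 0 1 = -2 * c := rfl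
lemma L02 : L a b c 0 2 = a - b * Complex.I := rfl
lemma L03 : L a b c 0 3 = 0 := rfl
lemma L10 : L a b c 1 0 = 0 := rfl
lemma L11 : L a b c 1 1 = a + b * Complex.I := rfl
lemma L12 : L a b c 1 2 = 2 * c := rfl
lemma L13 : L a b c 1 3 = (Real.sqrt 3 : ℂ) * (a - b * Complex.I) := rfl
end entries

/-- polarised form of `L L* = 4 |y|² id` -/
lemma L_polar (a b c a' b' c' : ℝ) : L a b c * (L a' b' c')ᴴ + L a' b' c' * (L a b c)ᴴ =
    ((8 * (a * a' + b * b' + c * c') : ℝ) : ℂ) • (1 : Matrix (Fin 2) (Fin 2) ℂ) := by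
  have h3 := sqrt3_sq
  have hI := Complex.I_mul_I
  ext i j
  rw [Matrix.add_apply, Matrix.mul_apply, Matrix.mul_apply, Fin.sum_univ_four, Fin.sum_univ_four]
  simp only [Matrix.conjTranspose_apply, Matrix.smul_apply, smul_eq_mul]
  fin_cases i <;> fin_cases j <;>
    simp only [Fin.mk_one, Fin.zero_eta, Fin.isValue, L00, L01, L02, L03, L10, L11, L12, L13,
      Matrix.one_apply_eq, ne_eq, one_ne_zero, not_false_eq_true, Matrix.one_apply_ne,
      zero_ne_one, map_mul, map_add, map_sub, map_neg, Complex.conj_ofReal, Complex.conj_I,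
      map_ofNat, RCLike.star_def, star_zero]
  · push_cast
    linear_combination (2 * a * a' - 2 * b * b' * Complex.I ^ 2) * h3 + (-8 * (b : ℂ) * b') * hI
  · ring
  · ring
  · push_cast
    linear_combination (2 * a * a' - 2 * b * b' * Complex.I ^ 2) * h3 + (-8 * (b : ℂ) * b') * hI

lemma L_harm (ε : ℝ) :
    pauli 0 * L ε 0 0 + pauli 1 * L 0 ε 0 + pauli 2 * L 0 0 ε = 0 := by
  have hI := Complex.I_mul_I
  ext i j
  fin_cases i <;> fin_cases j <;>
    simp [L, pauli]
  all_goals (try ring_nf)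
  all_goals (try simp [Complex.I_sq])

/-! ### The algebraic solution for the connection -/

lemma pauli_herm (j : Fin 3) : (pauli j)ᴴ = pauli j := by
  ext a b
  fin_cases j <;> fin_cases a <;> fin_cases b <;> simp [pauli]

/-- skew-Hermitian matrices `Z_j` with `Σ σ_j Z_j = G` -/
noncomputable def zf (G : Matrix (Fin 2) (Fin 2) ℂ) (j : Fin 3) : Matrix (Fin 2) (Fin 2) ℂ :=
  (5 / 24 : ℂ) • (pauli j * G - Gᴴ * pauli j) - (1 / 24 : ℂ) • (G * pauli j - pauli j * Gᴴ) +
    ((1 / 6 : ℂ) * ((pauli j * G).trace - star (pauli j * G).trace)) • (1 : Matrix (Fin 2) (Fin 2) ℂ)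

lemma zf_skew (G : Matrix (Fin 2) (Fin 2) ℂ) (j : Fin 3) : (zf G j)ᴴ = -zf G j := by
  unfold zf
  simp only [Matrix.conjTranspose_add, Matrix.conjTranspose_sub, Matrix.conjTranspose_smul,
    Matrix.conjTranspose_mul, Matrix.conjTranspose_conjTranspose, pauli_herm,
    Matrix.conjTranspose_one]
  have h1 : star (5 / 24 : ℂ) = 5 / 24 := by
    rw [RCLike.star_def, map_div₀, map_ofNat, map_ofNat]
  have h2 : star (1 / 24 : ℂ) = 1 / 24 := by
    rw [RCLike.star_def, map_div₀, map_one, map_ofNat]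
  have h3 : star (1 / 6 * ((pauli j * G).trace - star (pauli j * G).trace)) =
      -(1 / 6 * ((pauli j * G).trace - star (pauli j * G).trace)) := by
    rw [star_mul', star_sub, star_star]
    have : star (1 / 6 : ℂ) = 1 / 6 := by
      rw [RCLike.star_def, map_div₀, map_one, map_ofNat]
    rw [this]
    ring
  rw [h1, h2, h3]
  module

lemma zf_sum_aux (a b c d a' b' c' d' : ℂ) (h : a + d + a' + d' = 0) :
    ∑ j, pauli j * ((5 / 24 : ℂ) • (pauli j * !![a, b; c, d] - !![a', b'; c', d'] * pauli j) -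
      (1 / 24 : ℂ) • (!![a, b; c, d] * pauli j - pauli j * !![a', b'; c', d']) +
      ((1 / 6 : ℂ) * ((pauli j * !![a, b; c, d]).trace - (pauli j * !![a', b'; c', d']).trace)) •
        (1 : Matrix (Fin 2) (Fin 2) ℂ)) = !![a, b; c, d] := by
  have hI := Complex.I_mul_I
  have hone : (1 : Matrix (Fin 2) (Fin 2) ℂ) = !![1, 0; 0, 1] := Matrix.one_fin_two
  rw [Fin.sum_univ_three, hone]
  have p0 : pauli 0 = !![0, 1; 1, 0] := rfl
  have p1 : pauli 1 = !![0, -Complex.I; Complex.I, 0] := rfl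
  have p2 : pauli 2 = !![1, 0; 0, -1] := rfl
  rw [p0, p1, p2]
  simp only [Matrix.mul_fin_two, Matrix.smul_of, Matrix.of_sub_of, Matrix.of_add_of,
    Matrix.trace_fin_two_of, Matrix.smul_cons, Matrix.sub_cons, Matrix.add_cons, Matrix.head_cons,
    Matrix.tail_cons, Matrix.smul_empty, Matrix.empty_sub_empty, Matrix.empty_add_empty,
    smul_eq_mul]
  ext i k
  fin_cases i <;> fin_cases k <;> simp
  · linear_combination (-(1 / 4 : ℂ)) * h +
      (-5 / 24 * a + 5 / 24 * d' + 1 / 24 * d - 1 / 24 * a') * hI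
  · linear_combination (-3 / 8 * b - 3 / 8 * c' + 1 / 8 * c + 1 / 8 * b') * hI
  · linear_combination (-3 / 8 * c - 3 / 8 * b' + 1 / 8 * b + 1 / 8 * c') * hI
  · linear_combination (-(1 / 4 : ℂ)) * h +
      (-5 / 24 * d + 5 / 24 * a' + 1 / 24 * a - 1 / 24 * d') * hI

lemma zf_sum (G : Matrix (Fin 2) (Fin 2) ℂ) (hG : G.trace + star G.trace = 0) :
    ∑ j, pauli j * zf G j = G := by
  have h1 : ∀ j, star (pauli j * G).trace = (pauli j * Gᴴ).trace := by
    intro j
    rw [← Matrix.trace_conjTranspose, Matrix.conjTranspose_mul, pauli_herm, Matrix.trace_mul_comm]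
  rw [Matrix.trace_fin_two, star_add] at hG
  have h2 : G = !![G 0 0, G 0 1; G 1 0, G 1 1] := Matrix.eta_fin_two G
  have h3 : Gᴴ = !![star (G 0 0), star (G 1 0); star (G 0 1), star (G 1 1)] := by
    rw [Matrix.eta_fin_two Gᴴ]
    rfl
  have key := zf_sum_aux (G 0 0) (G 0 1) (G 1 0) (G 1 1) (star (G 0 0)) (star (G 1 0))
    (star (G 0 1)) (star (G 1 1)) (by rw [← hG]; ring)
  rw [← h2, ← h3] at key
  simp only [zf, h1]
  exact key

/-- The connection form. -/
noncomputable def Rm (P W : Matrix (Fin 2) (Fin 4) ℂ) (q : ℂ) (j : Fin 3) :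
    Matrix (Fin 2) (Fin 4) ℂ :=
  if j = 0 then pauli 0 * (W - q⁻¹ • (W * Pᴴ * P)) else 0

/-- The connection form. -/
noncomputable def Bf (P W : Matrix (Fin 2) (Fin 4) ℂ) (q : ℂ) (j : Fin 3) :
    Matrix (Fin 4) (Fin 4) ℂ :=
  q⁻¹ • (Pᴴ * Rm P W q j - (Rm P W q j)ᴴ * P) + (q⁻¹ * q⁻¹) • (Pᴴ * (zf (W * Pᴴ) j * P)) -
    (q⁻¹ * (zf (W * Pᴴ) j).trace / 2) • (1 - q⁻¹ • (Pᴴ * P))

section Bf

variable {P W : Matrix (Fin 2) (Fin 4) ℂ} {q : ℝ} (hP : P * Pᴴ = (q : ℂ) • (1 : Matrix _ _ ℂ))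
  (hq : q ≠ 0)
include hP hq

lemma Rm_mul (j : Fin 3) : Rm P W q j * Pᴴ = 0 := by
  have hqc : (q : ℂ) ≠ 0 := by exact_mod_cast hq
  unfold Rm
  split_ifs with h
  · rw [Matrix.mul_assoc, Matrix.sub_mul, Matrix.smul_mul, Matrix.mul_assoc (W * Pᴴ) P, hP,
      Matrix.mul_smul, Matrix.mul_one, smul_smul, inv_mul_cancel₀ hqc, one_smul, sub_self,
      Matrix.mul_zero]
  · simp

lemma mul_Rm (j : Fin 3) : P * (Rm P W q j)ᴴ = 0 := by
  have := congrArg Matrix.conjTranspose (Rm_mul (W := W) hP hq j)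
  rwa [Matrix.conjTranspose_mul, Matrix.conjTranspose_conjTranspose,
    Matrix.conjTranspose_zero] at this

lemma P_mul_Bf (j : Fin 3) : P * Bf P W q j = Rm P W q j + (q : ℂ)⁻¹ • (zf (W * Pᴴ) j * P) := by
  have hqc : (q : ℂ) ≠ 0 := by exact_mod_cast hq
  unfold Bf
  have h1 : P * (Pᴴ * Rm P W q j) = (q : ℂ) • Rm P W q j := by
    rw [← Matrix.mul_assoc, hP, Matrix.smul_mul, Matrix.one_mul]
  have h2 : P * ((Rm P W q j)ᴴ * P) = 0 := by
    rw [← Matrix.mul_assoc, mul_Rm hP hq, Matrix.zero_mul]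
  have h3 : P * (Pᴴ * (zf (W * Pᴴ) j * P)) = (q : ℂ) • (zf (W * Pᴴ) j * P) := by
    rw [← Matrix.mul_assoc, hP, Matrix.smul_mul, Matrix.one_mul]
  have h4 : P * (Pᴴ * P) = (q : ℂ) • P := by
    rw [← Matrix.mul_assoc, hP, Matrix.smul_mul, Matrix.one_mul]
  rw [Matrix.mul_sub, Matrix.mul_add, Matrix.mul_smul, Matrix.mul_smul, Matrix.mul_smul,
    Matrix.mul_sub, Matrix.mul_sub, Matrix.mul_smul, h1, h2, h3, h4, Matrix.mul_one, sub_zero,
    smul_smul, smul_smul, smul_smul, mul_assoc, inv_mul_cancel₀ hqc]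
  simp

lemma Bf_eq (hG : (W * Pᴴ).trace + star (W * Pᴴ).trace = 0) :
    ∑ j, pauli j * (P * Bf P W q j) = W := by
  have hqc : (q : ℂ) ≠ 0 := by exact_mod_cast hq
  have h1 : ∀ j, pauli j * (P * Bf P W q j) =
      pauli j * Rm P W q j + (q : ℂ)⁻¹ • (pauli j * zf (W * Pᴴ) j * P) := by
    intro j
    rw [P_mul_Bf hP hq, Matrix.mul_add, Matrix.mul_smul, Matrix.mul_assoc]
  simp_rw [h1]
  rw [Finset.sum_add_distrib, ← Finset.smul_sum, ← Matrix.sum_mul, zf_sum _ hG]
  have h2 : ∑ j, pauli j * Rm P W q j = W - (q : ℂ)⁻¹ • (W * Pᴴ * P) := by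
    rw [Fin.sum_univ_three]
    have h00 : pauli 0 * pauli 0 = 1 := by
      ext a b
      fin_cases a <;> fin_cases b <;> simp [pauli]
    simp only [Rm, if_true, one_ne_zero, if_false, Matrix.mul_zero, add_zero]
    rw [if_neg (by decide), Matrix.mul_zero, add_zero, ← Matrix.mul_assoc, h00, Matrix.one_mul]
  rw [h2]
  simp

omit hP hq in
lemma Bf_skew (j : Fin 3) : (Bf P W q j)ᴴ = -Bf P W q j := by
  have hst : star ((q : ℂ)⁻¹) = (q : ℂ)⁻¹ := by
    rw [RCLike.star_def, map_inv₀, Complex.conj_ofReal]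
  have htr : star ((zf (W * Pᴴ) j).trace) = -(zf (W * Pᴴ) j).trace := by
    rw [← Matrix.trace_conjTranspose, zf_skew, Matrix.trace_neg]
  have h2 : star ((q : ℂ)⁻¹ * (zf (W * Pᴴ) j).trace / 2) =
      -((q : ℂ)⁻¹ * (zf (W * Pᴴ) j).trace / 2) := by
    rw [div_eq_mul_inv, star_mul', star_mul', hst, htr]
    have : star ((2 : ℂ)⁻¹) = 2⁻¹ := by
      rw [RCLike.star_def, map_inv₀, map_ofNat]
    rw [this]; ring
  unfold Bf
  simp only [Matrix.conjTranspose_add, Matrix.conjTranspose_sub, Matrix.conjTranspose_smul,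
    Matrix.conjTranspose_mul, Matrix.conjTranspose_conjTranspose, Matrix.conjTranspose_one,
    zf_skew, star_mul', hst, h2]
  rw [Matrix.mul_neg, Matrix.neg_mul, Matrix.mul_assoc]
  module

lemma Bf_trace (j : Fin 3) : (Bf P W q j).trace = 0 := by
  have hqc : (q : ℂ) ≠ 0 := by exact_mod_cast hq
  unfold Bf
  rw [Matrix.trace_sub, Matrix.trace_add, Matrix.trace_smul, Matrix.trace_smul, Matrix.trace_smul,
    Matrix.trace_sub, Matrix.trace_sub, Matrix.trace_smul]
  have h1 : (Pᴴ * Rm P W q j).trace = 0 := by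
    rw [Matrix.trace_mul_comm, Rm_mul hP hq, Matrix.trace_zero]
  have h2 : ((Rm P W q j)ᴴ * P).trace = 0 := by
    rw [Matrix.trace_mul_comm, mul_Rm hP hq, Matrix.trace_zero]
  have h3 : (Pᴴ * (zf (W * Pᴴ) j * P)).trace = (q : ℂ) * (zf (W * Pᴴ) j).trace := by
    rw [Matrix.trace_mul_comm, Matrix.mul_assoc, hP, Matrix.mul_smul, Matrix.mul_one,
      Matrix.trace_smul, smul_eq_mul]
  have h4 : (Pᴴ * P).trace = (q : ℂ) * 2 := by
    rw [Matrix.trace_mul_comm, hP, Matrix.trace_smul, Matrix.trace_one]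
    simp
  have h5 : (1 : Matrix (Fin 4) (Fin 4) ℂ).trace = 4 := by
    rw [Matrix.trace_one]; simp
  rw [h1, h2, h3, h4, h5]
  simp only [smul_eq_mul]
  field_simp
  ring

end Bf

/-! ### Smoothness of matrix valued functions -/

/-- entrywise smoothness at a point -/
def SmAt {m n : ℕ} (F : V3 → Matrix (Fin m) (Fin n) ℂ) (x : V3) : Prop :=
  ∀ a b, ContDiffAt ℝ ∞ (fun y => F y a b) x

lemma SmAt.add {m n : ℕ} {F G : V3 → Matrix (Fin m) (Fin n) ℂ} {x : V3} (hF : SmAt F x)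
    (hG : SmAt G x) : SmAt (fun y => F y + G y) x := fun a b => (hF a b).add (hG a b)

lemma SmAt.sub {m n : ℕ} {F G : V3 → Matrix (Fin m) (Fin n) ℂ} {x : V3} (hF : SmAt F x)
    (hG : SmAt G x) : SmAt (fun y => F y - G y) x := fun a b => (hF a b).sub (hG a b)

lemma SmAt.smul {m n : ℕ} {F : V3 → Matrix (Fin m) (Fin n) ℂ} {c : V3 → ℂ} {x : V3}
    (hF : SmAt F x) (hc : ContDiffAt ℝ ∞ c x) : SmAt (fun y => c y • F y) x :=
  fun a b => hc.mul (hF a b)

lemma SmAt.mul {m n k : ℕ} {F : V3 → Matrix (Fin m) (Fin n) ℂ}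
    {G : V3 → Matrix (Fin n) (Fin k) ℂ} {x : V3} (hF : SmAt F x)
    (hG : SmAt G x) : SmAt (fun y => F y * G y) x := by
  intro a b
  simp only [Matrix.mul_apply]
  exact ContDiffAt.sum (fun i _ => (hF a i).mul (hG i b))

lemma SmAt.const {m n : ℕ} (F : Matrix (Fin m) (Fin n) ℂ) (x : V3) : SmAt (fun _ => F) x :=
  fun _ _ => contDiffAt_const

lemma contDiff_star : ContDiff ℝ ∞ (fun z : ℂ => star z) :=
  Complex.conjCLE.contDiff

lemma SmAt.star {m n : ℕ} {F : V3 → Matrix (Fin m) (Fin n) ℂ} {x : V3} (hF : SmAt F x) :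
    SmAt (fun y => (F y)ᴴ) x := fun a b => contDiff_star.contDiffAt.comp x (hF b a)

lemma SmAt.trace {m : ℕ} {F : V3 → Matrix (Fin m) (Fin m) ℂ} {x : V3} (hF : SmAt F x) :
    ContDiffAt ℝ ∞ (fun y => (F y).trace) x := by
  unfold Matrix.trace
  exact ContDiffAt.sum (fun i _ => hF i i)

lemma SmAt.zf {G : V3 → Matrix (Fin 2) (Fin 2) ℂ} {x : V3} (hG : SmAt G x) (j : Fin 3) :
    SmAt (fun y => zf (G y) j) x := by
  unfold TorusExample.zf
  have hp := SmAt.const (pauli j) x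
  have h1 : ContDiffAt ℝ ∞ (fun y => (pauli j * G y).trace) x := (hp.mul hG).trace
  exact (((((hp.mul hG).sub (hG.star.mul hp)).smul contDiffAt_const).sub
    (((hG.mul hp).sub (hp.mul hG.star)).smul contDiffAt_const)).add
    ((SmAt.const 1 x).smul (contDiffAt_const.mul
      (h1.sub (contDiff_star.contDiffAt.comp x h1)))))

lemma SmAt.Bf {P W : V3 → Matrix (Fin 2) (Fin 4) ℂ} {q : V3 → ℂ} {x : V3} (hP : SmAt P x)
    (hW : SmAt W x) (hq : ContDiffAt ℝ ∞ q x) (hqx : q x ≠ 0) (j : Fin 3) :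
    SmAt (fun y => Bf (P y) (W y) (q y) j) x := by
  have hqi : ContDiffAt ℝ ∞ (fun y => (q y)⁻¹) x := hq.inv hqx
  have hR : SmAt (fun y => Rm (P y) (W y) (q y) j) x := by
    unfold Rm
    split_ifs with h
    · exact (SmAt.const _ x).mul (hW.sub (((hW.mul hP.star).mul hP).smul hqi))
    · exact SmAt.const _ x
  have hZ := (hW.mul hP.star).zf j
  unfold TorusExample.Bf
  exact ((((hP.star.mul hR).sub (hR.star.mul hP)).smul hqi).add
    ((hP.star.mul (hZ.mul hP)).smul (hqi.mul hqi))).sub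
    (((SmAt.const 1 x).sub ((hP.star.mul hP).smul hqi)).smul
      ((hqi.mul hZ.trace).div_const 2))

lemma zf_zero (j : Fin 3) : zf 0 j = 0 := by
  unfold zf
  simp

lemma Bf_zero_left (P : Matrix (Fin 2) (Fin 4) ℂ) (q : ℂ) (j : Fin 3) : Bf P 0 q j = 0 := by
  unfold Bf
  have : Rm P 0 q j = 0 := by unfold Rm; simp
  rw [this, Matrix.zero_mul, zf_zero]
  simp

lemma Bf_q_zero (P W : Matrix (Fin 2) (Fin 4) ℂ) (j : Fin 3) : Bf P W 0 j = 0 := by
  unfold Bf
  simp

/-! ### The spinor `Ψ = c L(f)` -/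

/-- the spinor, with a normalisation constant `c` -/
noncomputable def Psi (c : ℝ) (x : V3) : Matrix (Fin 2) (Fin 4) ℂ :=
  (c : ℂ) • L (f0 x) (f1 x) (f2 x)

lemma L_lin (a b c : ℝ) : L a b c = (a : ℂ) • L 1 0 0 + (b : ℂ) • L 0 1 0 + (c : ℂ) • L 0 0 1 := by
  ext i j
  fin_cases i <;> fin_cases j <;> simp [L] <;> ring

/-- `j`-th partial derivative of a scalar function -/
noncomputable def pj (g : V3 → ℝ) (j : Fin 3) (x : V3) : ℝ := fderiv ℝ g x (Pi.single j 1)

lemma pj_smooth {g : V3 → ℝ} (hg : ContDiff ℝ ∞ g) (j : Fin 3) : ContDiff ℝ ∞ (pj g j) := by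
  have h1 : ContDiff ℝ ∞ (fderiv ℝ g) := hg.fderiv_right (by simp)
  exact h1.clm_apply contDiff_const

lemma dj_Psi (c : ℝ) (j : Fin 3) (x : V3) :
    dj (Psi c) j x = (c : ℂ) • L (pj f0 j x) (pj f1 j x) (pj f2 j x) := by
  ext a b
  unfold dj
  rw [Matrix.of_apply]
  have hd : ∀ {g : V3 → ℝ}, ContDiff ℝ ∞ g → ∀ m : ℂ,
      HasFDerivAt (fun y => (g y : ℂ) * m)
        ((Complex.ofRealCLM.comp (fderiv ℝ g x)).smulRight m) x := by
    intro g hg m
    have h1 : HasFDerivAt g (fderiv ℝ g x) x := (hg.differentiable (by simp) x).hasFDerivAt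
    have h2 : HasFDerivAt (fun y => (g y : ℂ)) (Complex.ofRealCLM.comp (fderiv ℝ g x)) x :=
      Complex.ofRealCLM.hasFDerivAt.comp x h1
    have h3 := h2.smul_const m
    exact h3
  have e1 : (fun y => Psi c y a b) = fun y => (c : ℂ) * ((f0 y : ℂ) * L 1 0 0 a b +
      (f1 y : ℂ) * L 0 1 0 a b + (f2 y : ℂ) * L 0 0 1 a b) := by
    funext y
    unfold Psi
    rw [L_lin]
    simp [Matrix.add_apply, Matrix.smul_apply]
  rw [e1]
  have h4 := (((hd f0_smooth (L 1 0 0 a b)).add (hd f1_smooth (L 0 1 0 a b))).add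
    (hd f2_smooth (L 0 0 1 a b))).const_mul (c : ℂ)
  have h5 : fderiv ℝ (fun y => (c : ℂ) * ((f0 y : ℂ) * L 1 0 0 a b +
      (f1 y : ℂ) * L 0 1 0 a b + (f2 y : ℂ) * L 0 0 1 a b)) x = _ := h4.fderiv
  rw [h5, L_lin (pj f0 j x)]
  simp [pj, Matrix.add_apply, Matrix.smul_apply]
  ring

/-- `W = D Ψ` for the flat Dirac operator -/
noncomputable def Wm (c : ℝ) (x : V3) : Matrix (Fin 2) (Fin 4) ℂ :=
  ∑ j, pauli j * dj (Psi c) j x

lemma Psi_sq (c : ℝ) (x : V3) : Psi c x * (Psi c x)ᴴ =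
    ((4 * c ^ 2 * fs x : ℝ) : ℂ) • (1 : Matrix (Fin 2) (Fin 2) ℂ) := by
  have h1 := L_polar (f0 x) (f1 x) (f2 x) (f0 x) (f1 x) (f2 x)
  have h2 : L (f0 x) (f1 x) (f2 x) * (L (f0 x) (f1 x) (f2 x))ᴴ =
      ((4 * fs x : ℝ) : ℂ) • (1 : Matrix (Fin 2) (Fin 2) ℂ) := by
    have h3 : (2 : ℂ) • (L (f0 x) (f1 x) (f2 x) * (L (f0 x) (f1 x) (f2 x))ᴴ) =
        (2 : ℂ) • (((4 * fs x : ℝ) : ℂ) • (1 : Matrix (Fin 2) (Fin 2) ℂ)) := by
      rw [two_smul, h1, smul_smul]
      congr 1
      unfold fs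
      push_cast
      ring
    exact smul_right_injective _ two_ne_zero h3
  unfold Psi
  rw [Matrix.conjTranspose_smul, Matrix.smul_mul, Matrix.mul_smul, h2, smul_smul, smul_smul]
  congr 1
  rw [RCLike.star_def, Complex.conj_ofReal]
  push_cast
  ring

lemma W_orth (c : ℝ) (x : V3) :
    (Wm c x * (Psi c x)ᴴ).trace + star (Wm c x * (Psi c x)ᴴ).trace = 0 := by
  have hj : ∀ j : Fin 3, (pauli j * dj (Psi c) j x * (Psi c x)ᴴ).trace +
      star (pauli j * dj (Psi c) j x * (Psi c x)ᴴ).trace = 0 := by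
    intro j
    have h1 : star (pauli j * dj (Psi c) j x * (Psi c x)ᴴ).trace =
        (pauli j * (Psi c x * (dj (Psi c) j x)ᴴ)).trace := by
      rw [← Matrix.trace_conjTranspose, Matrix.mul_assoc, Matrix.conjTranspose_mul,
        Matrix.conjTranspose_mul, Matrix.conjTranspose_conjTranspose, pauli_herm,
        Matrix.trace_mul_comm]
    rw [h1, Matrix.mul_assoc, ← Matrix.trace_add, ← Matrix.mul_add, dj_Psi]
    unfold Psi
    rw [Matrix.conjTranspose_smul, Matrix.conjTranspose_smul, Matrix.smul_mul, Matrix.smul_mul,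
      Matrix.mul_smul, Matrix.mul_smul, ← smul_add, ← smul_add, L_polar, Matrix.mul_smul,
      Matrix.mul_smul, Matrix.mul_smul, Matrix.mul_one, Matrix.trace_smul, Matrix.trace_smul,
      Matrix.trace_smul]
    have : (pauli j).trace = 0 := by
      fin_cases j <;> simp [pauli, Matrix.trace_fin_two]
    rw [this]
    simp
  have h2 : Wm c x * (Psi c x)ᴴ = ∑ j, pauli j * dj (Psi c) j x * (Psi c x)ᴴ := by
    unfold Wm
    rw [Matrix.sum_mul]
  rw [h2, Matrix.trace_sum, star_sum, ← Finset.sum_add_distrib]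
  exact Finset.sum_eq_zero (fun j _ => hj j)

lemma W_zero (c : ℝ) {x : V3} (hx : x ∈ Nb) : Wm c x = 0 := by
  obtain ⟨ε, hε⟩ := fderiv_on_Nb hx
  unfold Wm
  simp_rw [dj_Psi]
  rw [Fin.sum_univ_three]
  have e0 : ∀ k, pj f0 k x = if k = 0 then ε else 0 := fun k => (hε k).1
  have e1 : ∀ k, pj f1 k x = if k = 1 then ε else 0 := fun k => (hε k).2.1
  have e2 : ∀ k, pj f2 k x = if k = 2 then ε else 0 := fun k => (hε k).2.2
  simp only [e0, e1, e2]
  simp only [if_true, Fin.isValue, zero_ne_one, one_ne_zero, if_false, Fin.reduceEq]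
  rw [Matrix.mul_smul, Matrix.mul_smul, Matrix.mul_smul, ← smul_add, ← smul_add, L_harm, smul_zero]

lemma Psi_smAt (c : ℝ) (x : V3) : SmAt (Psi c) x := by
  have hof : ∀ {g : V3 → ℝ}, ContDiff ℝ ∞ g → ContDiffAt ℝ ∞ (fun y => (g y : ℂ)) x :=
    fun hg => (Complex.ofRealCLM.contDiff.comp hg).contDiffAt
  have h1 : SmAt (fun y => (c : ℂ) • ((f0 y : ℂ) • L 1 0 0 + (f1 y : ℂ) • L 0 1 0 +
      (f2 y : ℂ) • L 0 0 1)) x :=
    ((((SmAt.const _ x).smul (hof f0_smooth)).add ((SmAt.const _ x).smul (hof f1_smooth))).add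
      ((SmAt.const _ x).smul (hof f2_smooth))).smul contDiffAt_const
  have h2 : Psi c = fun y => (c : ℂ) • ((f0 y : ℂ) • L 1 0 0 + (f1 y : ℂ) • L 0 1 0 +
      (f2 y : ℂ) • L 0 0 1) := by
    funext y
    unfold Psi
    rw [L_lin]
  rw [h2]
  exact h1

lemma W_smAt (c : ℝ) (x : V3) : SmAt (Wm c) x := by
  have hof : ∀ {g : V3 → ℝ}, ContDiff ℝ ∞ g → ContDiffAt ℝ ∞ (fun y => (g y : ℂ)) x :=
    fun hg => (Complex.ofRealCLM.contDiff.comp hg).contDiffAt
  have h1 : ∀ j : Fin 3, SmAt (fun y => pauli j * ((c : ℂ) • ((pj f0 j y : ℂ) • L 1 0 0 +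
      (pj f1 j y : ℂ) • L 0 1 0 + (pj f2 j y : ℂ) • L 0 0 1))) x := fun j =>
    (SmAt.const _ x).mul (((((SmAt.const _ x).smul (hof (pj_smooth f0_smooth j))).add
      ((SmAt.const _ x).smul (hof (pj_smooth f1_smooth j)))).add
      ((SmAt.const _ x).smul (hof (pj_smooth f2_smooth j)))).smul contDiffAt_const)
  have h2 : Wm c = fun y => (pauli 0 * ((c : ℂ) • ((pj f0 0 y : ℂ) • L 1 0 0 +
      (pj f1 0 y : ℂ) • L 0 1 0 + (pj f2 0 y : ℂ) • L 0 0 1)) +
      pauli 1 * ((c : ℂ) • ((pj f0 1 y : ℂ) • L 1 0 0 +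
      (pj f1 1 y : ℂ) • L 0 1 0 + (pj f2 1 y : ℂ) • L 0 0 1))) +
      pauli 2 * ((c : ℂ) • ((pj f0 2 y : ℂ) • L 1 0 0 +
      (pj f1 2 y : ℂ) • L 0 1 0 + (pj f2 2 y : ℂ) • L 0 0 1)) := by
    funext y
    unfold Wm
    rw [Fin.sum_univ_three]
    simp only [dj_Psi]
    rw [← L_lin, ← L_lin, ← L_lin]
  rw [h2]
  exact ((h1 0).add (h1 1)).add (h1 2)

/-! ### Periodicity -/

lemma shift_apply (x : V3) (j i : Fin 3) :
    (x + Pi.single j (2 * Real.pi) : V3) i = x i + (if i = j then 2 * Real.pi else 0) := by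
  rw [Pi.add_apply, Pi.single_apply]

lemma sin_shift (x : V3) (j i : Fin 3) :
    Real.sin ((x + Pi.single j (2 * Real.pi) : V3) i) = Real.sin (x i) := by
  rw [shift_apply]
  split_ifs <;> simp

lemma cos_shift (x : V3) (j i : Fin 3) :
    Real.cos ((x + Pi.single j (2 * Real.pi) : V3) i) = Real.cos (x i) := by
  rw [shift_apply]
  split_ifs <;> simp

lemma S_shift (x : V3) (j i : Fin 3) : S ((x + Pi.single j (2 * Real.pi) : V3) i) = S (x i) := by
  unfold S; rw [sin_shift]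

lemma T_shift (x : V3) (j i : Fin 3) : T ((x + Pi.single j (2 * Real.pi) : V3) i) = T (x i) := by
  unfold T; rw [cos_shift]

lemma f0_per : Periodic3 f0 := fun x j => by unfold f0; rw [S_shift, T_shift, T_shift]
lemma f1_per : Periodic3 f1 := fun x j => by unfold f1; rw [S_shift, S_shift, T_shift]
lemma f2_per : Periodic3 f2 := fun x j => by unfold f2; rw [S_shift, S_shift, T_shift]

lemma pj_per {g : V3 → ℝ} (hg : Periodic3 g) (k : Fin 3) : Periodic3 (pj g k) := by
  intro x j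
  unfold pj
  have h1 : (fun y => g (y + Pi.single j (2 * Real.pi))) = g := funext fun y => hg y j
  have h2 := fderiv_comp_add_right (𝕜 := ℝ) (f := g) (x := x) (Pi.single j (2 * Real.pi))
  rw [h1] at h2
  rw [h2]

lemma fs_per : Periodic3 fs := fun x j => by unfold fs; rw [f0_per, f1_per, f2_per]

lemma Psi_per (c : ℝ) : Periodic3 (Psi c) := fun x j => by
  unfold Psi; rw [f0_per, f1_per, f2_per]

lemma W_per (c : ℝ) : Periodic3 (Wm c) := fun x j => by
  unfold Wm
  simp_rw [dj_Psi]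
  simp_rw [pj_per f0_per _ x j, pj_per f1_per _ x j, pj_per f2_per _ x j]

/-- the connection -/
noncomputable def Bc (c : ℝ) (j : Fin 3) (x : V3) : Matrix (Fin 4) (Fin 4) ℂ :=
  Bf (Psi c x) (Wm c x) ((4 * c ^ 2 * fs x : ℝ) : ℂ) j

lemma fs_smooth : ContDiff ℝ ∞ fs :=
  ((f0_smooth.pow 2).add (f1_smooth.pow 2)).add (f2_smooth.pow 2)

lemma Bc_conn (c : ℝ) (hc : c ≠ 0) : IsSUConnection 4 (Bc c) where
  smooth := by
    intro j a b
    rw [contDiff_iff_contDiffAt]
    intro x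
    by_cases hx : fs x = 0
    · have h1 : (fun y => Bc c j y a b) =ᶠ[𝓝 x] fun _ => 0 := by
        filter_upwards [isOpen_Nb.mem_nhds (zero_mem_Nb hx)] with y hy
        unfold Bc
        rw [W_zero c hy, Bf_zero_left]
        rfl
      exact contDiffAt_const.congr_of_eventuallyEq h1
    · have hq : ContDiffAt ℝ ∞ (fun y => ((4 * c ^ 2 * fs y : ℝ) : ℂ)) x :=
        (Complex.ofRealCLM.contDiff.comp (contDiff_const.mul fs_smooth)).contDiffAt
      exact SmAt.Bf (Psi_smAt c x) (W_smAt c x) hq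
        (by
          have : 4 * c ^ 2 * fs x ≠ 0 := mul_ne_zero (mul_ne_zero four_ne_zero
            (pow_ne_zero 2 hc)) hx
          exact_mod_cast this) j a b
  periodic := fun j x k => by
    unfold Bc
    rw [Psi_per, W_per, fs_per]
  skew := fun j x => Bf_skew j
  traceless := by
    intro j x
    unfold Bc
    by_cases hx : fs x = 0
    · rw [hx]
      simp only [mul_zero, Complex.ofReal_zero]
      rw [Bf_q_zero, Matrix.trace_zero]
    · exact Bf_trace (Psi_sq c x) (mul_ne_zero (mul_ne_zero four_ne_zero (pow_ne_zero 2 hc)) hx) j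

/-! ### Norm -/

lemma nsq_eq {n : ℕ} (P : Matrix (Fin 2) (Fin n) ℂ) : ((nsq P : ℝ) : ℂ) = (P * Pᴴ).trace := by
  unfold nsq
  rw [Matrix.trace]
  push_cast
  apply Finset.sum_congr rfl
  intro a _
  rw [Matrix.diag_apply, Matrix.mul_apply]
  apply Finset.sum_congr rfl
  intro b _
  rw [Matrix.conjTranspose_apply, RCLike.star_def, Complex.mul_conj]
  rw [← Complex.ofReal_pow, Complex.sq_norm]

lemma nsq_Psi (c : ℝ) (x : V3) : nsq (Psi c x) = 8 * c ^ 2 * fs x := by
  have h1 := nsq_eq (Psi c x)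
  rw [Psi_sq, Matrix.trace_smul, Matrix.trace_one] at h1
  have h2 : ((nsq (Psi c x) : ℝ) : ℂ) = ((8 * c ^ 2 * fs x : ℝ) : ℂ) := by
    rw [h1]
    simp
    ring
  exact_mod_cast h2

lemma fs_pt (t : ℝ) (h : |t| < 1 / 8) : f0 ![t, 0, 0] = t ∧ f1 ![t, 0, 0] = 0 ∧ f2 ![t, 0, 0] = 0 ∧
    f0 ![0, 0, t] = 0 ∧ f1 ![0, 0, t] = 0 ∧ f2 ![0, 0, t] = t := by
  have hS0 : S 0 = 0 := by unfold S; rw [Real.sin_zero, rho_zero]
  have hT0 : T 0 = 0 := T_zero (by rw [Real.cos_zero]; norm_num)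
  have hπ := Real.pi_gt_three
  have ht := abs_lt.mp h
  have hSt : S t = t := by
    unfold S
    have h1 : |Real.sin t| ≤ |t| := Real.abs_sin_le_abs
    rw [rho_eq (by linarith), Real.arcsin_sin (by linarith) (by linarith)]
  have hTt : T t = 0 := by
    apply T_zero
    have h1 := Real.one_sub_sq_div_two_le_cos (x := t)
    have h2 : t ^ 2 ≤ 1 := by
      have := sq_abs t
      have := abs_nonneg t
      nlinarith
    linarith
  refine ⟨?_, ?_, ?_, ?_, ?_, ?_⟩
  · simp [f0, hSt, hT0]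
  · simp [f1, hS0]
  · simp [f2, hS0]
  · simp [f0, hS0, hT0, hTt]
  · simp [f1, hS0, hT0]
  · simp [f2, hT0, hSt]

lemma integral_fs_pos : 0 < ∫ x in Icc (0 : V3) (fun _ => 2 * Real.pi), fs x := by
  have hπ := Real.pi_pos
  have hcont : Continuous fs := fs_smooth.continuous
  rw [setIntegral_pos_iff_support_of_nonneg_ae (ae_of_all _ fs_nonneg)
    (hcont.continuousOn.integrableOn_compact isCompact_Icc)]
  have hopen : IsOpen (Function.support fs) := isOpen_ne.preimage hcont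
  set y : V3 := fun _ => Real.pi / 2 with hy
  have hyint : y ∈ interior (Icc (0 : V3) (fun _ => 2 * Real.pi)) := by
    rw [← Set.pi_univ_Icc, interior_pi_set Set.finite_univ]
    intro i _
    show y i ∈ interior (Icc ((0 : V3) i) (2 * Real.pi))
    rw [interior_Icc]
    constructor
    · show (0 : ℝ) < Real.pi / 2
      positivity
    · show Real.pi / 2 < 2 * Real.pi
      linarith
  have hys : y ∈ Function.support fs := by
    intro h
    have := (zero_data h).1
    simp only [hy, Real.sin_pi_div_two] at this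
    norm_num at this
  have hne : (Function.support fs ∩ interior (Icc (0 : V3) (fun _ => 2 * Real.pi))).Nonempty :=
    ⟨y, hys, hyint⟩
  have h1 := (hopen.inter isOpen_interior).measure_pos (volume : Measure V3) hne
  exact h1.trans_le (measure_mono (inter_subset_inter_right _ interior_subset))

/-! ### Non-extension -/

lemma proj_zero {n : ℕ} {P : Matrix (Fin n) (Fin n) ℂ} {Ψ : Matrix (Fin 2) (Fin n) ℂ}
    (h : IsKernelProj P Ψ) : Ψ * P = 0 ∧ P * Ψᴴ = 0 := by
  have h1 : Ψ * P = 0 := by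
    apply Matrix.ext_of_mulVec_single
    intro i
    have h2 : P.mulVec (P.mulVec (Pi.single i 1)) = P.mulVec (Pi.single i 1) := by
      rw [Matrix.mulVec_mulVec, h.idem]
    have h3 := (h.range _).1 h2
    rw [Matrix.mulVec_mulVec] at h3
    rw [h3, Matrix.zero_mulVec]
  refine ⟨h1, ?_⟩
  have := congrArg Matrix.conjTranspose h1
  rwa [Matrix.conjTranspose_mul, h.herm, Matrix.conjTranspose_zero] at this

lemma not_extends (c : ℝ) (hc : c ≠ 0) : ¬ KernelMapExtends 4 {x | fs x = 0} (Psi c) := by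
  rintro ⟨P, hPc, hP⟩
  -- sequences
  have hseq : Tendsto (fun n : ℕ => 1 / ((n : ℝ) + 10)) atTop (𝓝 0) := by
    exact Tendsto.const_div_atTop
      (tendsto_atTop_add_const_right _ _ tendsto_natCast_atTop_atTop) 1
  have hsmall : ∀ n : ℕ, 0 < 1 / ((n : ℝ) + 10) ∧ |1 / ((n : ℝ) + 10)| < 1 / 8 := by
    intro n
    have h0 : (0 : ℝ) ≤ n := Nat.cast_nonneg n
    refine ⟨by positivity, ?_⟩
    rw [abs_of_pos (by positivity), div_lt_div_iff₀ (by positivity) (by norm_num)]
    linarith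
  have hcc : (c : ℂ) ≠ 0 := by exact_mod_cast hc
  have hent : ∀ i j : Fin 4, Continuous (fun x => P x i j) := fun i j =>
    (continuous_apply j).comp ((continuous_apply i).comp hPc)
  have hz0 : (![0, 0, 0] : V3) = 0 := by
    ext i; fin_cases i <;> rfl
  -- along the first axis
  have hA : ∀ n : ℕ, (Real.sqrt 3 : ℂ) * P ![1 / ((n : ℝ) + 10), 0, 0] 0 0 +
      P ![1 / ((n : ℝ) + 10), 0, 0] 0 2 = 0 := by
    intro n
    obtain ⟨hpos, hsm⟩ := hsmall n
    set t := 1 / ((n : ℝ) + 10)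
    obtain ⟨e0, e1, e2, _, _, _⟩ := fs_pt t hsm
    have hne : (![t, 0, 0] : V3) ∉ {x | fs x = 0} := by
      intro h
      have := (fs_zero h).1
      rw [e0] at this
      exact hpos.ne' this
    have h1 := (proj_zero (hP _ hne)).2
    have h2 := congrFun (congrFun h1 0) 0
    rw [Matrix.mul_apply, Fin.sum_univ_four] at h2
    simp only [Matrix.conjTranspose_apply, Psi, e0, e1, e2, Matrix.smul_apply, L00, L01, L02, L03,
      Matrix.zero_apply, smul_eq_mul, RCLike.star_def, map_mul, Complex.conj_ofReal, map_add,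
      map_sub, map_neg, map_zero, Complex.ofReal_zero, zero_mul, mul_zero, add_zero, sub_zero,
      Complex.conj_I] at h2
    have ht : (t : ℂ) ≠ 0 := by exact_mod_cast hpos.ne'
    have h3 : (c : ℂ) * t * ((Real.sqrt 3 : ℂ) * P ![t, 0, 0] 0 0 + P ![t, 0, 0] 0 2) = 0 := by
      linear_combination h2
    rcases mul_eq_zero.mp h3 with h4 | h4
    · exact absurd h4 (mul_ne_zero hcc ht)
    · exact h4
  -- along the third axis
  have hB : ∀ n : ℕ, P ![0, 0, 1 / ((n : ℝ) + 10)] 0 0 = 1 ∧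
      P ![0, 0, 1 / ((n : ℝ) + 10)] 0 2 = 0 := by
    intro n
    obtain ⟨hpos, hsm⟩ := hsmall n
    set t := 1 / ((n : ℝ) + 10)
    obtain ⟨_, _, _, e0, e1, e2⟩ := fs_pt t hsm
    have hne : (![0, 0, t] : V3) ∉ {x | fs x = 0} := by
      intro h
      have := (fs_zero h).2.2
      rw [e2] at this
      exact hpos.ne' this
    have ht : (t : ℂ) ≠ 0 := by exact_mod_cast hpos.ne'
    have hK := hP _ hne
    constructor
    · have h1 : (Psi c ![0, 0, t]).mulVec (Pi.single 0 1) = 0 := by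
        ext i
        rw [Matrix.mulVec_single_one]
        fin_cases i
        · simp [Psi, e0, e1, L00]
        · simp [Psi, L10]
      have h2 := (hK.range _).2 h1
      have h3 := congrFun h2 0
      rw [Matrix.mulVec_single_one] at h3
      simpa using h3
    · have h1 := (proj_zero hK).2
      have h2 := congrFun (congrFun h1 0) 1
      rw [Matrix.mul_apply, Fin.sum_univ_four] at h2
      simp only [Matrix.conjTranspose_apply, Psi, e0, e1, e2, Matrix.smul_apply, L10, L11, L12,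
        L13, Matrix.zero_apply, smul_eq_mul, RCLike.star_def, map_mul, Complex.conj_ofReal,
        map_add, map_sub, map_zero, Complex.ofReal_zero, zero_mul, mul_zero, add_zero,
        sub_zero, zero_add, map_ofNat] at h2
      have h3 : (2 * c : ℂ) * t * P ![0, 0, t] 0 2 = 0 := by linear_combination h2
      rcases mul_eq_zero.mp h3 with h4 | h4
      · exact absurd h4 (mul_ne_zero (mul_ne_zero two_ne_zero hcc) ht)
      · exact h4
  -- limits
  have hlimA : Tendsto (fun n : ℕ => (![1 / ((n : ℝ) + 10), 0, 0] : V3)) atTop (𝓝 0) := by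
    rw [tendsto_pi_nhds]
    intro i
    fin_cases i
    · simpa using hseq
    · simp
    · simp
  have hlimB : Tendsto (fun n : ℕ => (![0, 0, 1 / ((n : ℝ) + 10)] : V3)) atTop (𝓝 0) := by
    rw [tendsto_pi_nhds]
    intro i
    fin_cases i
    · simp
    · simp
    · simpa using hseq
  have hB1 : P 0 0 0 = 1 := by
    have h1 := ((hent 0 0).tendsto 0).comp hlimB
    exact tendsto_nhds_unique h1 (tendsto_const_nhds.congr fun n => ((hB n).1).symm)
  have hB2 : P 0 0 2 = 0 := by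
    have h1 := ((hent 0 2).tendsto 0).comp hlimB
    exact tendsto_nhds_unique h1 (tendsto_const_nhds.congr fun n => ((hB n).2).symm)
  have hA1 : (Real.sqrt 3 : ℂ) * P 0 0 0 + P 0 0 2 = 0 := by
    have h1 := ((((hent 0 0).tendsto 0).comp hlimA).const_mul (Real.sqrt 3 : ℂ)).add
      (((hent 0 2).tendsto 0).comp hlimA)
    exact tendsto_nhds_unique h1 (tendsto_const_nhds.congr fun n => (hA n).symm)
  rw [hB1, hB2, mul_one, add_zero] at hA1
  have h5 : Real.sqrt 3 = 0 := by exact_mod_cast hA1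
  have h6 : 0 < Real.sqrt 3 := by positivity
  exact h6.ne' h5

lemma interior_empty : interior {x : V3 | fs x = 0} = ∅ := by
  rw [Set.eq_empty_iff_forall_notMem]
  intro x hx
  rw [mem_interior_iff_mem_nhds] at hx
  have hc : Tendsto (fun t : ℝ => x + Pi.single 0 t) (𝓝 0) (𝓝 x) := by
    have h1 : Continuous (fun t : ℝ => (x + Pi.single (0 : Fin 3) t : V3)) := by
      refine continuous_pi fun i => ?_
      simp only [Pi.add_apply, Pi.single_apply]
      by_cases hi : i = 0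
      · simp only [hi, if_true]; exact continuous_const.add continuous_id
      · simp only [hi, if_false]; exact continuous_const
    have h2 := h1.tendsto 0
    simpa using h2
  have h3 := hc.eventually hx
  rw [Metric.eventually_nhds_iff] at h3
  obtain ⟨ε, hε, h4⟩ := h3
  set t := min (ε / 2) 1 with ht
  have ht0 : 0 < t := lt_min (by linarith) one_pos
  have ht1 : t < ε := (min_le_left _ _).trans_lt (by linarith)
  have ht2 : t ≤ 1 := min_le_right _ _
  have h5 : fs (x + Pi.single 0 t) = 0 := h4 (by rw [Real.dist_eq, sub_zero, abs_of_pos ht0]; exact ht1)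
  have h6' : x ∈ {x : V3 | fs x = 0} := mem_of_mem_nhds hx
  have h6 : fs x = 0 := h6'
  have h7 := (zero_data h5).1
  have h8 := (zero_data h6).1
  have h9 : (x + Pi.single (0 : Fin 3) t : V3) 0 = x 0 + t := by simp
  rw [h9, Real.sin_add, h8, zero_mul, zero_add] at h7
  have h10 := Real.sin_sq_add_cos_sq (x 0)
  rw [h8] at h10
  have h11 : 0 < Real.sin t := Real.sin_pos_of_pos_of_lt_pi ht0 (by linarith [Real.pi_gt_three])
  rcases mul_eq_zero.mp h7 with h12 | h12
  · rw [h12] at h10; norm_num at h10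
  · exact h11.ne' h12

/-- **Q1 of MP_92a303_gt is false.**  On the flat torus `T³` (trivial spin structure, trivial `L`,
`n = 4` spinors) there are a smooth `SU(4)`-connection `B` on `E = T³ × ℂ⁴` and a solution
`(A, Ψ, 0)` of the blown-up equations over `T³ \ Z` with nonempty blow-up set `Z`, whose kernel
map has no continuous extension over `Z`. -/
theorem result : ∃ (B : Fin 3 → V3 → Matrix (Fin 4) (Fin 4) ℂ) (Z : Set V3)
    (A : Fin 3 → V3 → ℝ) (Ψ : V3 → Matrix (Fin 2) (Fin 4) ℂ),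
    IsSUConnection 4 B ∧ Z.Nonempty ∧ IsSolution 4 B Z A Ψ ∧ ¬ KernelMapExtends 4 Z Ψ := by
  set I : ℝ := ∫ x in Icc (0 : V3) (fun _ => 2 * Real.pi), fs x with hI
  have hIpos : 0 < I := integral_fs_pos
  set c : ℝ := Real.sqrt (1 / (8 * I)) with hc
  have hcpos : 0 < c := Real.sqrt_pos.mpr (by positivity)
  have hc2 : c ^ 2 = 1 / (8 * I) := Real.sq_sqrt (by positivity)
  refine ⟨Bc c, {x | fs x = 0}, fun _ _ => 0, Psi c, Bc_conn c hcpos.ne', ?_, ?_,
    not_extends c hcpos.ne'⟩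
  · refine ⟨![0, 0, 0], ?_⟩
    obtain ⟨e0, e1, e2, _, _, _⟩ := fs_pt 0 (by norm_num)
    show fs _ = 0
    unfold fs
    rw [e0, e1, e2]; norm_num
  · refine ⟨isClosed_eq fs_smooth.continuous continuous_const, interior_empty, ?_, ?_, ?_, ?_,
      Psi_per c, ?_, ?_, ?_, ?_⟩
    · intro x j
      show (fs _ = 0) = (fs x = 0)
      rw [fs_per]
    · intro j; exact contDiffOn_const
    · intro j x k; rfl
    · intro a b x _
      exact (Psi_smAt c x a b).contDiffWithinAt
    · refine ⟨fun x => Real.sqrt (8 * c ^ 2 * fs x),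
        Real.continuous_sqrt.comp (continuous_const.mul fs_smooth.continuous), ?_, ?_⟩
      · intro x _
        rw [nsq_Psi]
      · intro x
        have h1 : 0 ≤ 8 * c ^ 2 * fs x := mul_nonneg (by positivity) (fs_nonneg x)
        rw [Real.sqrt_eq_zero h1]
        show _ ↔ fs x = 0
        constructor
        · intro h2
          rcases mul_eq_zero.mp h2 with h3 | h3
          · exact absurd h3 (by positivity)
          · exact h3
        · intro h2; rw [h2, mul_zero]
    · simp_rw [nsq_Psi]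
      rw [integral_const_mul, hc2, ← hI]
      field_simp
    · intro x hx
      have h1 : dirac (fun _ _ => 0) (Bc c) (Psi c) x =
          Wm c x - ∑ j, pauli j * (Psi c x * Bc c j x) := by
        unfold dirac Wm
        rw [← Finset.sum_sub_distrib]
        apply Finset.sum_congr rfl
        intro j _
        rw [Complex.ofReal_zero, mul_zero, zero_smul, add_zero, Matrix.mul_sub]
      rw [h1]
      have hq : 4 * c ^ 2 * fs x ≠ 0 :=
        mul_ne_zero (mul_ne_zero four_ne_zero (pow_ne_zero 2 hcpos.ne')) hx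
      have h2 := Bf_eq (Psi_sq c x) hq (W_orth c x)
      unfold Bc
      rw [h2, sub_self]
    · intro x _
      unfold mu
      rw [Psi_sq, nsq_Psi, ← sub_smul, ← Complex.ofReal_sub]
      have : 4 * c ^ 2 * fs x - 8 * c ^ 2 * fs x / 2 = 0 := by ring
      rw [this, Complex.ofReal_zero, zero_smul]

end Pool.Agent.Results.MP_92a303_gt.TorusExample
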